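import Pool.Agent.U843.ME.S9

/-!
# Large sets of integers with small mixed multiplicative energy

`energy B N` is the number of quadruples `(a, b, c, d)` with `a, c ∈ B`, `1 ≤ b, d ≤ N` and `a b = c d`
(`Pool/Agent/U843/ME/Defs.lean`).

The sets `B N` consist of products `m p ∈ (N / 4, N]` of a prime `p` and an integer `m ≤ N ^ (1/4)` whose
number `Ω(m)` of prime factors lies between `(11/25) log log N` and `(14/25) log log N`. With the weight
`2 ^ (-Ω)` the sum of `1 / m` over all `m` has size `(log N) ^ (1/2)`, and almost all of it comes from these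
`m`; as `2 ^ Ω(m) ≥ (log N) ^ 0.304` for these `m`, the sum of their inverses is at least `(log N) ^ 0.8`. This
gives sets of density `(log N) ^ (-1/5)`. For the energy one uses the same weight as an upper bound for
the indicator function, and the bounds `∑ 2 ^ (-Ω(n)) / n ≪ (log x) ^ (1/2)`,
`∑ 4 ^ (-Ω(n)) / n ≪ (log x) ^ (1/4)`, `∑ 2 ^ (-Ω(n)) ≪ x (log x) ^ (-1/2)` (sums over `n ≤ x`).
-/

namespace Pool.Agent.Results.MP_2883d2_nt.SmallMixedEnergy

open Pool.Agent.U843.ME

/-- The answer to Q1 is yes: with `α = 1/5` and `β = 1/4`, so `α + β = 9/20 < 1/2`, there is a family of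
sets `B N ⊆ {1, …, N}` of density `(log N) ^ (-α)` whose mixed multiplicative energy is at most a
constant times `N |B N| (log N) ^ β` for all large `N`. -/
theorem result : ∃ α β : ℝ, α = 1 / 5 ∧ β = 1 / 4 ∧ 0 ≤ α ∧ 0 ≤ β ∧ α + β < 1 / 2 ∧
    ∃ (B : ℕ → Finset ℕ) (c C K : ℝ) (N₀ : ℕ), 0 < c ∧ c ≤ C ∧ ∀ N : ℕ, N₀ ≤ N →
      B N ⊆ Finset.Icc 1 N ∧
      c * (N * Real.log N ^ (-α)) ≤ ((B N).card : ℝ) ∧
      ((B N).card : ℝ) ≤ C * (N * Real.log N ^ (-α)) ∧
      (energy (B N) N : ℝ) ≤ K * (N * (B N).card * Real.log N ^ β) := by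
  obtain ⟨K, N₀, h⟩ := exists_B
  refine ⟨1 / 5, 1 / 4, rfl, rfl, by norm_num, by norm_num, by norm_num, ?_⟩
  choose! B hB using h
  exact ⟨B, 1 / 4, 14, K, N₀, by norm_num, by norm_num, hB⟩

end Pool.Agent.Results.MP_2883d2_nt.SmallMixedEnergy
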